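import Pool.Agent.T2H39.Chg.Main

set_option autoImplicit false

open Finset Filter

namespace Pool.Agent.T2H39.Chg

theorem grid_of_translates {h g : ℕ} {A : Finset ℤ} (hA : ThreeAPFree (A : Set ℤ))
    (x : Fin h → ℤ) (hx : Function.Injective x) (k : Fin g → ℤ) (hk : Function.Injective k)
    (hxk : ∀ i j, x i + k j ∈ A) : (fun c : Fin h × Fin g => x c.1 + k c.2) ∈ grids (Fin h) (Fin g) A := by
  rw [mem_grids]
  refine ⟨fun c => hxk _ _, ?_, ?_⟩
  · rintro ⟨i, j⟩ ⟨i', j'⟩ heq
    simp only at heq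
    by_cases hj : j = j'
    · subst hj
      have : x i = x i' := by linarith
      rw [hx this]
    · exfalso
      have h1 : (x i + k j') + (x i' + k j) = (x i + k j) + (x i + k j) := by linarith
      have h2 := hA (mem_coe.2 (hxk i j')) (mem_coe.2 (hxk i j)) (mem_coe.2 (hxk i' j)) h1
      have h3 : k j' = k j := by linarith
      exact hj (hk h3).symm
  · intro i i' j j'
    simp only
    ring

theorem main {h g : ℕ} (hh : 2 ≤ h) (hg : 2 ≤ g) :
    ∃ A : Set ℤ, A ⊆ {n : ℤ | 1 ≤ n} ∧ A.Infinite ∧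
      (∀ X : Finset ℤ, X.card = h → ∀ k : Fin g → ℤ, Function.Injective k →
        ¬ (∀ i : Fin g, ∀ x ∈ X, x + k i ∈ A)) ∧
      ∀ ε : ℝ, 0 < ε → ∀ᶠ n : ℕ in atTop,
        (n : ℝ) ^ (1 - θ h g - ε) ≤ ((A ∩ Set.Icc (1 : ℤ) (n : ℤ)).ncard : ℝ) := by
  classical
  obtain ⟨J, hJ1, A, hAmono, hApos, hAap, hAgrid, hAS⟩ := exists_seq hh hg
  have hθ0 := θ_pos hh hg
  have hθ1 := θ_lt_one hh hg
  set α : ℝ := 1 - θ h g with hα
  have hα0 : 0 < α := by rw [hα]; linarith
  set L : ℝ := Real.log 2 with hL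
  have hL0 : 0 < L := Real.log_pos (by norm_num)
  have hΛ := Lam_ge h g
  set ℓ : ℝ := Real.log (4 * Lam h g) with hℓ
  have hℓ0 : 0 ≤ ℓ := Real.log_nonneg (by linarith)
  have hmono : Monotone A := monotone_nat_of_le_succ hAmono
  set Ai : Set ℤ := {x | ∃ j, x ∈ A j} with hAi
  have hAipos : Ai ⊆ {n : ℤ | 1 ≤ n} := by
    rintro x ⟨j, hj⟩
    exact hApos j x hj
  have hgrowth : ∀ ε : ℝ, 0 < ε → ∀ᶠ n : ℕ in atTop,
      (n : ℝ) ^ (α - ε) ≤ ((Ai ∩ Set.Icc (1 : ℤ) (n : ℤ)).ncard : ℝ) := by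
    intro ε hε
    set ε' : ℝ := min ε α with hε'
    have hε'0 : 0 < ε' := lt_min hε hα0
    set δ : ℝ := α - ε' with hδ
    have hδ0 : 0 ≤ δ := by
      have : ε' ≤ α := min_le_right _ _
      linarith
    set C : ℝ := 4 * α * √L + ℓ + 2 * δ * L + Real.log 4 + δ * Real.log 3 + δ * L with hC
    have hlog4 : 0 ≤ Real.log 4 := Real.log_nonneg (by norm_num)
    have hlog3 : 0 ≤ Real.log 3 := Real.log_nonneg (by norm_num)
    obtain ⟨T, hT⟩ := exists_nat_ge (C / (ε' * L))
    have hTC : C ≤ ε' * L * T := by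
      rw [div_le_iff₀ (mul_pos hε'0 hL0)] at hT
      linarith
    have hkey : ∀ j : ℕ, T ≤ j →
        ((3 * nn (j + 1 + J) : ℕ) : ℝ) ^ δ ≤
          Real.exp (α * (((j + J : ℕ) : ℝ) ^ 2 * L - 4 * (((j + J : ℕ) : ℝ) * √L)) -
            (j + 1) * ℓ) / 4 := by
      intro j hj
      set t : ℝ := ((j + J : ℕ) : ℝ) with ht
      have hjt : (j : ℝ) + 1 ≤ t := by
        rw [ht]; push_cast
        have : (1 : ℝ) ≤ J := by exact_mod_cast hJ1
        linarith
      have ht1 : 1 ≤ t := by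
        have : (0 : ℝ) ≤ j := by positivity
        linarith
      have hTt : (T : ℝ) ≤ t := by
        have : (T : ℝ) ≤ j := by exact_mod_cast hj
        linarith
      have e1 : ((3 * nn (j + 1 + J) : ℕ) : ℝ) =
          Real.exp (Real.log 3 + (t + 1) ^ 2 * L) := by
        have h1 : (nn (j + 1 + J) : ℝ) = Real.exp ((t + 1) ^ 2 * L) := by
          have h2 : (0 : ℝ) < nn (j + 1 + J) := by exact_mod_cast nn_pos _
          rw [← Real.exp_log h2]
          congr 1
          unfold nn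
          push_cast
          rw [Real.log_pow]
          push_cast
          rw [ht]
          push_cast
          ring
        rw [Real.exp_add, ← h1, Real.exp_log (by norm_num)]
        push_cast
        ring
      rw [e1, ← Real.exp_mul]
      have e2 : Real.exp (α * (t ^ 2 * L - 4 * (t * √L)) - (j + 1) * ℓ) / 4 =
          Real.exp (α * (t ^ 2 * L - 4 * (t * √L)) - (j + 1) * ℓ - Real.log 4) := by
        rw [Real.exp_sub _ (Real.log 4), Real.exp_log (by norm_num)]
      rw [e2]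
      apply Real.exp_le_exp.2
      have h1 : (j + 1) * ℓ ≤ t * ℓ := mul_le_mul_of_nonneg_right hjt hℓ0
      have h2 : C * t ≤ ε' * L * t * t := by
        have : C ≤ ε' * L * t := hTC.trans (mul_le_mul_of_nonneg_left hTt (by positivity))
        exact mul_le_mul_of_nonneg_right this (by linarith)
      have h3 : Real.log 4 + δ * Real.log 3 + δ * L ≤
          t * (Real.log 4 + δ * Real.log 3 + δ * L) := by
        have : 0 ≤ Real.log 4 + δ * Real.log 3 + δ * L := by positivity
        nlinarith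
      have h4 : C * t = t * (4 * α * √L) + t * ℓ + t * (2 * δ * L) +
          t * (Real.log 4 + δ * Real.log 3 + δ * L) := by rw [hC]; ring
      have h5 : ε' = α - δ := by rw [hδ]; ring
      rw [h5] at h2
      nlinarith
    filter_upwards [eventually_ge_atTop (3 * nn (T + J)), eventually_ge_atTop 1] with n hn hn1
    have hex : ∃ j, n < 3 * nn (j + J) := by
      refine ⟨n, ?_⟩
      have h1 : n + J < 2 ^ (n + J) := Nat.lt_two_pow_self
      have h2 : 2 ^ (n + J) ≤ nn (n + J) := by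
        unfold nn
        refine Nat.pow_le_pow_right (by norm_num) ?_
        rw [sq]
        exact Nat.le_mul_self _
      omega
    obtain ⟨hj1, hj2⟩ : n < 3 * nn (Nat.find hex + J) ∧
        ∀ i, i < Nat.find hex → ¬ n < 3 * nn (i + J) :=
      ⟨Nat.find_spec hex, fun i hi => Nat.find_min hex hi⟩
    have hTlt : T < Nat.find hex := by
      by_contra hcon
      push Not at hcon
      have : nn (Nat.find hex + J) ≤ nn (T + J) := nn_mono (by omega)
      omega
    obtain ⟨j, hj⟩ : ∃ j, Nat.find hex = j + 1 := ⟨Nat.find hex - 1, by omega⟩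
    rw [hj] at hj1
    have hj3 : 3 * nn (j + J) ≤ n := by
      have := hj2 j (by omega)
      omega
    have hTj : T ≤ j := by omega
    obtain ⟨S, hSA, hSub, hScard⟩ := hAS j
    have hncard : (S.card : ℝ) ≤ ((Ai ∩ Set.Icc (1 : ℤ) (n : ℤ)).ncard : ℝ) := by
      have h1 : (S : Set ℤ) ⊆ Ai ∩ Set.Icc (1 : ℤ) (n : ℤ) := by
        intro s hs
        have hs' : s ∈ S := hs
        have hsA := hSA hs'
        refine ⟨⟨j + 1, hsA⟩, hApos _ s hsA, ?_⟩
        have h2 := hSub s hs'
        have h3 : (3 * nn (j + J) : ℤ) ≤ n := by exact_mod_cast hj3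
        linarith
      have h2 := Set.ncard_le_ncard h1 ((Set.finite_Icc _ _).inter_of_right _)
      rw [Set.ncard_coe_finset] at h2
      exact_mod_cast h2
    have hn1' : (1 : ℝ) ≤ n := by exact_mod_cast hn1
    calc (n : ℝ) ^ (α - ε) ≤ (n : ℝ) ^ δ := by
          refine Real.rpow_le_rpow_of_exponent_le hn1' ?_
          have : ε' ≤ ε := min_le_left _ _
          linarith
      _ ≤ ((3 * nn (j + 1 + J) : ℕ) : ℝ) ^ δ := by
          refine Real.rpow_le_rpow (by positivity) ?_ hδ0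
          exact_mod_cast hj1.le
      _ ≤ _ := hkey j hTj
      _ ≤ S.card := hScard
      _ ≤ _ := hncard
  refine ⟨Ai, hAipos, ?_, ?_, hgrowth⟩
  · intro hfin
    have h1 := hgrowth (α / 2) (by positivity)
    have h2 : Tendsto (fun n : ℕ => (n : ℝ) ^ (α - α / 2)) atTop atTop :=
      (tendsto_rpow_atTop (by linarith)).comp tendsto_natCast_atTop_atTop
    obtain ⟨n, hn1, hn2⟩ := (h1.and (h2.eventually_gt_atTop (Ai.ncard : ℝ))).exists
    have h3 : (Ai ∩ Set.Icc (1 : ℤ) (n : ℤ)).ncard ≤ Ai.ncard :=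
      Set.ncard_le_ncard Set.inter_subset_left hfin
    have h4 : ((Ai ∩ Set.Icc (1 : ℤ) (n : ℤ)).ncard : ℝ) ≤ (Ai.ncard : ℝ) := by exact_mod_cast h3
    linarith
  · intro X hX k hk hcon
    let e : Fin h ≃ X := (X.equivFinOfCardEq hX).symm
    have hex : ∀ c : Fin h × Fin g, ∃ j, (e c.1 : ℤ) + k c.2 ∈ A j := fun c =>
      hcon c.2 _ (e c.1).2
    choose jj hjj using hex
    set m : ℕ := univ.sup jj with hm
    have hall : ∀ (i : Fin h) (j : Fin g), (e i : ℤ) + k j ∈ A m := fun i j =>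
      hmono (Finset.le_sup (f := jj) (mem_univ (i, j))) (hjj (i, j))
    have := grid_of_translates (hAap m) (fun i => (e i : ℤ))
      (Subtype.val_injective.comp e.injective) k hk hall
    rw [hAgrid m] at this
    simp at this

theorem exponent_eq {h g : ℕ} (hh : 2 ≤ h) (hg : 2 ≤ g) :
    (1 - 1 / (h : ℝ)) * (1 - 1 / (g : ℝ)) * (1 + 1 / ((h : ℝ) * (g : ℝ) - 1)) = 1 - θ h g := by
  have h1 : (0 : ℝ) < h := by positivity
  have h2 : (0 : ℝ) < g := by positivity
  have h3 := hg_pos hh hg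
  unfold θ
  field_simp
  ring

end Pool.Agent.T2H39.Chg
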