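import Pool.Agent.T2H39.Chg.Grid

set_option autoImplicit false

open Finset

namespace Pool.Agent.T2H39.Chg

theorem desc_ineq (M b : ℕ) (hMb : M ≤ b) :
    ∀ t, M.descFactorial t * b ^ t ≤ b.descFactorial t * M ^ t := by
  intro t
  induction t with
  | zero => simp
  | succ t ih =>
    rw [Nat.descFactorial_succ, Nat.descFactorial_succ, pow_succ, pow_succ]
    have h1 : (M - t) * b ≤ (b - t) * M := by
      rcases le_total M t with h | h
      · simp [Nat.sub_eq_zero_of_le h]
      · obtain ⟨u, rfl⟩ := Nat.exists_eq_add_of_le h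
        obtain ⟨v, rfl⟩ := Nat.exists_eq_add_of_le hMb
        have e1 : t + u - t = u := by omega
        have e2 : t + u + v - t = u + v := by omega
        rw [e1, e2]
        nlinarith
    calc (M - t) * M.descFactorial t * (b ^ t * b)
        = ((M - t) * b) * (M.descFactorial t * b ^ t) := by ring
      _ ≤ ((b - t) * M) * (b.descFactorial t * M ^ t) := Nat.mul_le_mul h1 ih
      _ = (b - t) * b.descFactorial t * (M ^ t * M) := by ring

theorem choose_ineq (M b t : ℕ) (hMb : M ≤ b) (ht : t ≤ M) :
    (b - t).choose (M - t) * b ^ t ≤ b.choose M * M ^ t := by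
  have h1 := desc_ineq M b hMb t
  rw [Nat.descFactorial_eq_factorial_mul_choose, Nat.descFactorial_eq_factorial_mul_choose] at h1
  have h2 : M.choose t * b ^ t ≤ b.choose t * M ^ t := by
    have := Nat.factorial_pos t
    rw [mul_assoc, mul_assoc] at h1
    exact Nat.le_of_mul_le_mul_left h1 this
  have h3 : b.choose M * M.choose t = b.choose t * (b - t).choose (M - t) :=
    Nat.choose_mul ht
  have h4 : 0 < b.choose t := Nat.choose_pos (ht.trans hMb)
  refine Nat.le_of_mul_le_mul_left ?_ h4
  calc b.choose t * ((b - t).choose (M - t) * b ^ t)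
      = (b.choose t * (b - t).choose (M - t)) * b ^ t := by ring
    _ = b.choose M * M.choose t * b ^ t := by rw [h3]
    _ = b.choose M * (M.choose t * b ^ t) := by ring
    _ ≤ b.choose M * (b.choose t * M ^ t) := Nat.mul_le_mul_left _ h2
    _ = b.choose t * (b.choose M * M ^ t) := by ring

theorem card_superset {B T : Finset ℤ} (hT : T ⊆ B) {M : ℕ} :
    ((powersetCard M B).filter (fun S => T ⊆ S)).card ≤ (B.card - T.card).choose (M - T.card) := by
  classical
  have h1 : (B.card - T.card).choose (M - T.card) = (powersetCard (M - T.card) (B \ T)).card := by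
    rw [card_powersetCard, card_sdiff_of_subset hT]
  rw [h1]
  refine Finset.card_le_card_of_injOn (fun S => S \ T) ?_ ?_
  · intro S hS
    rw [Finset.mem_coe, mem_filter, mem_powersetCard] at hS
    rw [Finset.mem_coe, mem_powersetCard]
    refine ⟨sdiff_subset_sdiff hS.1.1 (le_refl _), ?_⟩
    rw [card_sdiff_of_subset hS.2, hS.1.2]
  · intro S hS S' hS' h
    rw [Finset.mem_coe, mem_filter, mem_powersetCard] at hS hS'
    simp only at h
    have e1 : S \ T ∪ T = S := sdiff_union_of_subset hS.2
    have e2 : S' \ T ∪ T = S' := sdiff_union_of_subset hS'.2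
    rw [← e1, ← e2, h]

theorem card_superset_le {B T : Finset ℤ} (hT : T ⊆ B) {M : ℕ} (hMB : M ≤ B.card)
    (hB : 0 < B.card) :
    (((powersetCard M B).filter (fun S => T ⊆ S)).card : ℝ) ≤
      (B.card.choose M : ℝ) * ((M : ℝ) / B.card) ^ T.card := by
  classical
  by_cases hTM : T.card ≤ M
  · have h1 := card_superset hT (M := M)
    have h2 := choose_ineq M B.card T.card hMB hTM
    have h3 : (((B.card - T.card).choose (M - T.card) : ℕ) : ℝ) * (B.card : ℝ) ^ T.card ≤
        (B.card.choose M : ℝ) * (M : ℝ) ^ T.card := by exact_mod_cast h2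
    have hb : (0 : ℝ) < (B.card : ℝ) ^ T.card := by positivity
    have h4 : (((B.card - T.card).choose (M - T.card) : ℕ) : ℝ) ≤
        (B.card.choose M : ℝ) * ((M : ℝ) / B.card) ^ T.card := by
      rw [div_pow, mul_div_assoc', le_div_iff₀ hb]
      exact h3
    exact le_trans (by exact_mod_cast h1) h4
  · have : (powersetCard M B).filter (fun S => T ⊆ S) = ∅ := by
      refine filter_eq_empty_iff.2 ?_
      intro S hS hTS
      rw [mem_powersetCard] at hS
      exact hTM (by rw [← hS.2]; exact card_le_card hTS)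
    rw [this]
    simp only [card_empty, Nat.cast_zero]
    positivity

/-- the elements of `Z` that map `P` into `S` -/
noncomputable def sub {ι κ : Type} (Z : Finset (ι × κ → ℤ)) (P : Finset (ι × κ)) (S : Finset ℤ) :
    Finset (ι × κ → ℤ) := by
  classical
  exact Z.filter (fun z => ∀ c ∈ P, z c ∈ S)

theorem mem_sub {ι κ : Type} {Z : Finset (ι × κ → ℤ)} {P : Finset (ι × κ)} {S : Finset ℤ}
    {z : ι × κ → ℤ} : z ∈ sub Z P S ↔ z ∈ Z ∧ ∀ c ∈ P, z c ∈ S := by
  classical
  simp [sub]

theorem sum_contain_le {ι κ : Type} (Z : Finset (ι × κ → ℤ)) (P : Finset (ι × κ)) (B : Finset ℤ)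
    (M : ℕ) (hMB : M ≤ B.card) (hB : 0 < B.card)
    (hZ : ∀ z ∈ Z, Function.Injective z ∧ ∀ c ∈ P, z c ∈ B) :
    (∑ S ∈ powersetCard M B, (((sub Z P S).card : ℕ) : ℝ)) ≤
      Z.card * ((B.card.choose M : ℝ) * ((M : ℝ) / B.card) ^ P.card) := by
  classical
  have h1 : (∑ S ∈ powersetCard M B, (((sub Z P S).card : ℕ) : ℝ))
      = ∑ z ∈ Z, ((((powersetCard M B).filter (fun S => P.image z ⊆ S)).card : ℕ) : ℝ) := by
    simp only [sub, Finset.card_filter, Nat.cast_sum]
    rw [Finset.sum_comm]
    refine Finset.sum_congr rfl fun z _ => Finset.sum_congr rfl fun S _ => ?_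
    have : (∀ c ∈ P, z c ∈ S) ↔ P.image z ⊆ S := by
      rw [Finset.image_subset_iff]
    simp only [this]
  rw [h1]
  calc (∑ z ∈ Z, ((((powersetCard M B).filter (fun S => P.image z ⊆ S)).card : ℕ) : ℝ))
      ≤ ∑ z ∈ Z, ((B.card.choose M : ℝ) * ((M : ℝ) / B.card) ^ P.card) := by
        refine Finset.sum_le_sum fun z hz => ?_
        have h2 : P.image z ⊆ B := by
          rw [Finset.image_subset_iff]
          exact (hZ z hz).2
        have h3 : (P.image z).card = P.card := card_image_of_injective _ (hZ z hz).1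
        have := card_superset_le h2 hMB hB
        rwa [h3] at this
    _ = Z.card * ((B.card.choose M : ℝ) * ((M : ℝ) / B.card) ^ P.card) := by
        rw [Finset.sum_const, nsmul_eq_mul]

end Pool.Agent.T2H39.Chg
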