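import Mathlib

set_option autoImplicit false

open Finset

namespace Pool.Agent.T2H39.Chg

/-- A grid: an injective array `z i j = x i + k j`. -/
def IsGrid {ι κ : Type} (z : ι × κ → ℤ) : Prop :=
  Function.Injective z ∧
    ∀ i i' : ι, ∀ j j' : κ, z (i, j) + z (i', j') = z (i, j') + z (i', j)

open Classical in
/-- The grids with all values in `A`. -/
noncomputable def grids (ι κ : Type) [Fintype ι] [Fintype κ] (A : Finset ℤ) :
    Finset (ι × κ → ℤ) :=
  (Fintype.piFinset fun _ => A).filter IsGrid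

theorem mem_grids {ι κ : Type} [Fintype ι] [Fintype κ] {A : Finset ℤ} {z : ι × κ → ℤ} :
    z ∈ grids ι κ A ↔ (∀ c, z c ∈ A) ∧ IsGrid z := by
  classical
  simp [grids]

/-- number of grids -/
noncomputable def G (ι κ : Type) [Fintype ι] [Fintype κ] (A : Finset ℤ) : ℕ :=
  (grids ι κ A).card

theorem IsGrid.comp {ι κ ι' κ' : Type} {z : ι × κ → ℤ} (hz : IsGrid z) (f : ι' → ι) (f' : κ' → κ)
    (hf : Function.Injective f) (hf' : Function.Injective f') :
    IsGrid (fun c : ι' × κ' => z (f c.1, f' c.2)) := by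
  refine ⟨?_, ?_⟩
  · rintro ⟨a, b⟩ ⟨c, d⟩ h
    have := hz.1 h
    simp only [Prod.mk.injEq] at this
    rw [hf this.1, hf' this.2]
  · intro i i' j j'
    exact hz.2 _ _ _ _

theorem G_congr {ι κ ι' κ' : Type} [Fintype ι] [Fintype κ] [Fintype ι'] [Fintype κ']
    (e : ι' ≃ ι) (e' : κ' ≃ κ) (A : Finset ℤ) : G ι κ A = G ι' κ' A := by
  classical
  unfold G
  refine Finset.card_nbij' (fun z c => z (e c.1, e' c.2)) (fun z c => z (e.symm c.1, e'.symm c.2))
    ?_ ?_ ?_ ?_
  · intro z hz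
    rw [Finset.mem_coe, mem_grids] at hz ⊢
    exact ⟨fun c => hz.1 _, hz.2.comp e e' e.injective e'.injective⟩
  · intro z hz
    rw [Finset.mem_coe, mem_grids] at hz ⊢
    exact ⟨fun c => hz.1 _, hz.2.comp e.symm e'.symm e.symm.injective e'.symm.injective⟩
  · intro z _
    funext c
    simp
  · intro z _
    funext c
    simp

theorem G_fin {ι κ : Type} [Fintype ι] [Fintype κ] (A : Finset ℤ) :
    G ι κ A = G (Fin (Fintype.card ι)) (Fin (Fintype.card κ)) A :=
  G_congr (Fintype.equivFin ι).symm (Fintype.equivFin κ).symm A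

theorem IsGrid.swap {ι κ : Type} {z : ι × κ → ℤ} (hz : IsGrid z) :
    IsGrid (fun c : κ × ι => z (c.2, c.1)) := by
  refine ⟨?_, ?_⟩
  · rintro ⟨a, b⟩ ⟨c, d⟩ h
    have := hz.1 h
    simp only [Prod.mk.injEq] at this
    rw [this.1, this.2]
  · intro i i' j j'
    have := hz.2 j j' i i'
    simp only
    linarith

theorem G_swap {ι κ : Type} [Fintype ι] [Fintype κ] (A : Finset ℤ) : G ι κ A = G κ ι A := by
  classical
  unfold G
  refine Finset.card_nbij' (fun z c => z (c.2, c.1)) (fun z c => z (c.2, c.1)) ?_ ?_ ?_ ?_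
  · intro z hz
    rw [Finset.mem_coe, mem_grids] at hz ⊢
    exact ⟨fun c => hz.1 _, hz.2.swap⟩
  · intro z hz
    rw [Finset.mem_coe, mem_grids] at hz ⊢
    exact ⟨fun c => hz.1 _, hz.2.swap⟩
  · intro z _
    rfl
  · intro z _
    rfl

open Classical in
/-- grid arrays with the rows in `R` valued in `B` and the others in `A` -/
noncomputable def rowZ (ι κ : Type) [Fintype ι] [Fintype κ] (A B : Finset ℤ) (R : Finset ι) :
    Finset (ι × κ → ℤ) :=
  (Fintype.piFinset fun c : ι × κ => if c.1 ∈ R then B else A).filter IsGrid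

theorem mem_rowZ {ι κ : Type} [Fintype ι] [Fintype κ] {A B : Finset ℤ} {R : Finset ι}
    {z : ι × κ → ℤ} :
    z ∈ rowZ ι κ A B R ↔ (∀ c : ι × κ, c.1 ∈ R → z c ∈ B) ∧ (∀ c : ι × κ, c.1 ∉ R → z c ∈ A) ∧
      IsGrid z := by
  classical
  simp only [rowZ, mem_filter, Fintype.mem_piFinset, ← and_assoc]
  refine and_congr_left fun _ => ?_
  constructor
  · intro h
    refine ⟨fun c hc => ?_, fun c hc => ?_⟩
    · simpa [hc] using h c
    · simpa [hc] using h c
  · rintro ⟨h1, h2⟩ c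
    by_cases hc : c.1 ∈ R
    · simpa [hc] using h1 c hc
    · simpa [hc] using h2 c hc

/-- Count of the row type. -/
theorem card_rowZ_le {ι κ : Type} [Fintype ι] [Fintype κ] [DecidableEq ι] (A B : Finset ℤ)
    (R : Finset ι) (i₀ : ι) (hi₀ : i₀ ∉ R) (j₀ : κ) :
    (rowZ ι κ A B R).card ≤
      G (Fin (Fintype.card ι - R.card)) (Fin (Fintype.card κ)) A * B.card ^ R.card := by
  classical
  have h1 : G (Fin (Fintype.card ι - R.card)) (Fin (Fintype.card κ)) A
      = G {i // i ∉ R} κ A := by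
    rw [G_fin (ι := {i // i ∉ R}) (κ := κ)]
    have : Fintype.card {i // i ∉ R} = Fintype.card ι - R.card := by
      rw [Fintype.card_subtype_compl]
      simp
    rw [this]
  rw [h1]
  have h2 : B.card ^ R.card = (Fintype.piFinset fun _ : {i // i ∈ R} => B).card := by
    simp
  rw [h2]
  unfold G
  rw [← Finset.card_product]
  refine Finset.card_le_card_of_injOn
    (fun z => (fun c : {i // i ∉ R} × κ => z (c.1.1, c.2), fun i : {i // i ∈ R} => z (i.1, j₀)))
    ?_ ?_
  · intro z hz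
    rw [Finset.mem_coe, mem_rowZ] at hz
    simp only [coe_product, Set.mem_prod, mem_coe, mem_grids, Fintype.mem_piFinset]
    refine ⟨⟨fun c => hz.2.1 _ c.1.2, ?_⟩, fun i => hz.1 _ i.2⟩
    exact hz.2.2.comp (fun i : {i // i ∉ R} => i.1) (fun j : κ => j) Subtype.val_injective
      Function.injective_id
  · intro z hz z' hz' heq
    rw [Finset.mem_coe, mem_rowZ] at hz hz'
    simp only [Prod.mk.injEq] at heq
    obtain ⟨e1, e2⟩ := heq
    have e1' : ∀ i, i ∉ R → ∀ j, z (i, j) = z' (i, j) := fun i hi j =>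
      congrFun e1 (⟨i, hi⟩, j)
    have e2' : ∀ i, i ∈ R → z (i, j₀) = z' (i, j₀) := fun i hi => congrFun e2 ⟨i, hi⟩
    funext c
    obtain ⟨i, j⟩ := c
    by_cases hi : i ∈ R
    · have a1 := hz.2.2.2 i i₀ j j₀
      have a2 := hz'.2.2.2 i i₀ j j₀
      have a3 := e1' i₀ hi₀ j
      have a4 := e1' i₀ hi₀ j₀
      have a5 := e2' i hi
      linarith
    · exact e1' i hi j

/-- Count of the full type. -/
theorem card_full_le {ι κ : Type} [Fintype ι] [Fintype κ] (B : Finset ℤ) (i₀ : ι) (j₀ : κ) :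
    (grids ι κ B).card ≤ B.card ^ (Fintype.card κ) * B.card ^ (Fintype.card ι - 1) := by
  classical
  have h1 : B.card ^ (Fintype.card κ) = (Fintype.piFinset fun _ : κ => B).card := by simp
  have h2 : B.card ^ (Fintype.card ι - 1) = (Fintype.piFinset fun _ : {i // i ≠ i₀} => B).card := by
    simp [Fintype.card_subtype_compl]
  rw [h1, h2, ← Finset.card_product]
  refine Finset.card_le_card_of_injOn
    (fun z => (fun j : κ => z (i₀, j), fun i : {i // i ≠ i₀} => z (i.1, j₀))) ?_ ?_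
  · intro z hz
    rw [Finset.mem_coe, mem_grids] at hz
    simp only [coe_product, Set.mem_prod, mem_coe, Fintype.mem_piFinset]
    exact ⟨fun j => hz.1 _, fun i => hz.1 _⟩
  · intro z hz z' hz' heq
    rw [Finset.mem_coe, mem_grids] at hz hz'
    simp only [Prod.mk.injEq] at heq
    obtain ⟨e1, e2⟩ := heq
    have e1' : ∀ j, z (i₀, j) = z' (i₀, j) := fun j => congrFun e1 j
    have e2' : ∀ i, i ≠ i₀ → z (i, j₀) = z' (i, j₀) := fun i hi => congrFun e2 ⟨i, hi⟩
    funext c
    obtain ⟨i, j⟩ := c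
    by_cases hi : i = i₀
    · subst hi
      exact e1' j
    · have a1 := hz.2.2 i i₀ j j₀
      have a2 := hz'.2.2 i i₀ j j₀
      have a3 := e1' j
      have a4 := e1' j₀
      have a5 := e2' i hi
      linarith

/-- Additive `0/1` patterns depend only on the row or only on the column. -/
theorem pattern_dichotomy {ι κ : Type} (P : ι × κ → Prop)
    (hP : ∀ i i' j j', (P (i, j) ∧ P (i', j') → P (i, j') ∧ P (i', j)) ∧
      (¬ P (i, j) ∧ ¬ P (i', j') → ¬ P (i, j') ∧ ¬ P (i', j))) :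
    (∀ i j j', P (i, j) ↔ P (i, j')) ∨ (∀ i i' j, P (i, j) ↔ P (i', j)) := by
  classical
  by_contra hcon
  push Not at hcon
  obtain ⟨⟨i, j, j', h1⟩, ⟨k, k', l, h2⟩⟩ := hcon
  -- find `a b : κ` with `P (i,a)`, `¬ P (i,b)`
  have hA : ∃ a b, P (i, a) ∧ ¬ P (i, b) := by
    by_cases h : P (i, j)
    · exact ⟨j, j', h, fun h' => by tauto⟩
    · exact ⟨j', j, by tauto, h⟩
  have hB : ∃ a b, P (a, l) ∧ ¬ P (b, l) := by
    by_cases h : P (k, l)
    · exact ⟨k, k', h, fun h' => by tauto⟩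
    · exact ⟨k', k, by tauto, h⟩
  obtain ⟨a, b, ha, hb⟩ := hA
  obtain ⟨c, d, hc, hd⟩ := hB
  -- every row has `P (x,a)` and `¬ P (x,b)`
  have r1 : ∀ x, P (x, a) := by
    intro x
    by_contra hx
    exact ((hP x i a b).2 ⟨hx, hb⟩).2 ha
  have r2 : ∀ x, ¬ P (x, b) := by
    intro x hx
    exact hb ((hP i x a b).1 ⟨ha, hx⟩).1
  -- column `l`
  have := (hP c d l b).2
  have h3 := (hP c d l b).1
  have h4 := (hP d c l a).1
  have h5 := (hP d c l a).2
  have h6 := (hP c d l a).1 ⟨hc, r1 d⟩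
  exact hd h6.2

end Pool.Agent.T2H39.Chg
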