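import Pool.Agent.T2H39.Chg.Step

set_option autoImplicit false

open Finset

namespace Pool.Agent.T2H39.Chg

theorem apfree_union {A B S : Finset ℤ} {N : ℤ} (sep : Sep A B N) (hS : S ⊆ B)
    (hA : ThreeAPFree (A : Set ℤ)) (hB : ThreeAPFree (B : Set ℤ)) :
    ThreeAPFree ((A ∪ S : Finset ℤ) : Set ℤ) := by
  intro a ha b hb c hc habc
  simp only [coe_union, Set.mem_union, mem_coe] at ha hb hc
  have hN := sep.posN
  have lb : ∀ x, x ∈ A ∨ x ∈ S → 1 ≤ x ∧ 2 * x < 3 * N := by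
    rintro x (hx | hx)
    · have := sep.old x hx
      constructor <;> linarith
    · have := sep.new x (hS hx)
      constructor <;> linarith
  have a1 := lb a ha
  have b1 := lb b hb
  have c1 := lb c hc
  rcases hb with hb | hb
  · have hb2 := (sep.old b hb).2
    have haA : a ∈ A := by
      rcases ha with h | h
      · exact h
      · have := (sep.new a (hS h)).1
        linarith
    have hcA : c ∈ A := by
      rcases hc with h | h
      · exact h
      · have := (sep.new c (hS h)).1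
        linarith
    exact hA (mem_coe.2 haA) (mem_coe.2 hb) (mem_coe.2 hcA) habc
  · have hb2 := (sep.new b (hS hb)).1
    have haA : a ∈ S := by
      rcases ha with h | h
      · have := (sep.old a h).2
        linarith
      · exact h
    have hcA : c ∈ S := by
      rcases hc with h | h
      · have := (sep.old c h).2
        linarith
      · exact h
    exact hB (mem_coe.2 (hS haA)) (mem_coe.2 (hS hb)) (mem_coe.2 (hS hcA)) habc

/-- the size of the blocks -/
def nn (t : ℕ) : ℕ := 2 ^ (t ^ 2)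

theorem nn_pos (t : ℕ) : 0 < nn t := by unfold nn; positivity

theorem nn_succ {t : ℕ} (ht : 1 ≤ t) : 8 * nn t ≤ nn (t + 1) := by
  unfold nn
  have : (t + 1) ^ 2 = t ^ 2 + (2 * t + 1) := by ring
  rw [this, pow_add, mul_comm]
  refine Nat.mul_le_mul_left _ ?_
  calc 8 = 2 ^ 3 := by norm_num
    _ ≤ 2 ^ (2 * t + 1) := Nat.pow_le_pow_right (by norm_num) (by omega)

theorem nn_mono : Monotone nn := by
  intro a b hab
  unfold nn
  exact Nat.pow_le_pow_right (by norm_num) (Nat.pow_le_pow_left hab 2)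

theorem exists_block (n : ℕ) : ∃ B : Finset ℤ, B.card = rothNumberNat n ∧
    ThreeAPFree (B : Set ℤ) ∧ ∀ s ∈ B, (2 * n : ℤ) ≤ s ∧ s < 3 * n := by
  classical
  obtain ⟨T, hT, hTc, hTf⟩ := rothNumberNat_spec n
  have hinj : Function.Injective (fun t : ℕ => (2 * n + t : ℤ)) := by
    intro a b h
    simpa using h
  refine ⟨T.image (fun t : ℕ => (2 * n + t : ℤ)), ?_, ?_, ?_⟩
  · rw [card_image_of_injective _ hinj, hTc]
  · intro a ha b hb c hc habc
    simp only [coe_image, Set.mem_image, mem_coe] at ha hb hc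
    obtain ⟨a', ha', rfl⟩ := ha
    obtain ⟨b', hb', rfl⟩ := hb
    obtain ⟨c', hc', rfl⟩ := hc
    have h1 : a' + c' = b' + b' := by
      have : ((a' + c' : ℕ) : ℤ) = ((b' + b' : ℕ) : ℤ) := by push_cast; linarith
      exact_mod_cast this
    have := hTf (mem_coe.2 ha') (mem_coe.2 hb') (mem_coe.2 hc') h1
    rw [this]
  · intro s hs
    simp only [mem_image] at hs
    obtain ⟨t, ht, rfl⟩ := hs
    have := mem_range.1 (hT ht)
    constructor <;> omega

/-- lower bound for the block sizes -/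
theorem roth_ge (t : ℕ) :
    Real.exp ((t : ℝ) ^ 2 * Real.log 2 - 4 * (t * √(Real.log 2))) ≤ (rothNumberNat (nn t) : ℝ) := by
  have h := Behrend.roth_lower_bound (N := nn t)
  have h2 : (0 : ℝ) < Real.log 2 := Real.log_pos (by norm_num)
  have hlog : Real.log (nn t : ℝ) = (t : ℝ) ^ 2 * Real.log 2 := by
    unfold nn
    push_cast
    rw [Real.log_pow]
    push_cast
    ring
  have hsq : √(Real.log (nn t : ℝ)) = t * √(Real.log 2) := by
    rw [hlog, Real.sqrt_mul (by positivity), Real.sqrt_sq (by positivity)]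
  have hnn : (nn t : ℝ) = Real.exp ((t : ℝ) ^ 2 * Real.log 2) := by
    rw [← hlog, Real.exp_log]
    exact_mod_cast nn_pos t
  refine le_trans (le_of_eq ?_) h
  rw [hsq, hnn, ← Real.exp_add]
  congr 1
  ring

/-- The constant `Λ`. -/
noncomputable def Lam (h g : ℕ) : ℝ := 1 + (h * g * (2 ^ h + 2 ^ g) : ℝ)

theorem Lam_ge (h g : ℕ) : 1 ≤ Lam h g := by
  unfold Lam
  have : (0 : ℝ) ≤ (h * g * (2 ^ h + 2 ^ g) : ℝ) := by positivity
  linarith

theorem exists_seq {h g : ℕ} (hh : 2 ≤ h) (hg : 2 ≤ g) :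
    ∃ J : ℕ, 1 ≤ J ∧ ∃ A : ℕ → Finset ℤ, (∀ j, A j ⊆ A (j + 1)) ∧
      (∀ j, ∀ a ∈ A j, 1 ≤ a) ∧ (∀ j, ThreeAPFree (A j : Set ℤ)) ∧
      (∀ j, grids (Fin h) (Fin g) (A j) = ∅) ∧
      (∀ j, ∃ S ⊆ A (j + 1), (∀ s ∈ S, s < 3 * (nn (j + J) : ℤ)) ∧
        Real.exp ((1 - θ h g) * (((j + J : ℕ) : ℝ) ^ 2 * Real.log 2 -
          4 * (((j + J : ℕ) : ℝ) * √(Real.log 2))) - (j + 1) * Real.log (4 * Lam h g)) / 4
          ≤ S.card) := by
  classical
  have hθ0 := θ_pos hh hg
  have hθ1 := θ_lt_one hh hg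
  set α : ℝ := 1 - θ h g with hα
  have hα0 : 0 < α := by rw [hα]; linarith
  set L : ℝ := Real.log 2 with hL
  have hL0 : 0 < L := Real.log_pos (by norm_num)
  have hΛ := Lam_ge h g
  set Λ : ℝ := Lam h g with hΛd
  have hlΛ : 0 ≤ Real.log (4 * Λ) := Real.log_nonneg (by linarith)
  obtain ⟨J, hJ⟩ := exists_nat_ge ((Real.log (4 * Λ) / α + 4 * √L) / L + 1)
  have hJ1 : 1 ≤ J := by
    have : (1 : ℝ) ≤ J := by
      have h0 : 0 ≤ (Real.log (4 * Λ) / α + 4 * √L) / L := by positivity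
      linarith
    exact_mod_cast this
  have hJ2 : Real.log (4 * Λ) ≤ α * (J * L - 4 * √L) := by
    have h1 : (Real.log (4 * Λ) / α + 4 * √L) / L ≤ J := by linarith
    rw [div_le_iff₀ hL0] at h1
    have h2 : Real.log (4 * Λ) / α ≤ J * L - 4 * √L := by linarith
    rw [div_le_iff₀ hα0] at h2
    linarith
  refine ⟨J, hJ1, ?_⟩
  -- blocks
  choose B hBc hBf hBr using fun j => exists_block (nn (j + J))
  set b : ℕ → ℝ := fun j => ((B j).card : ℝ) with hb
  have hbge : ∀ j : ℕ, Real.exp (((j + J : ℕ) : ℝ) ^ 2 * L - 4 * (((j + J : ℕ) : ℝ) * √L)) ≤ b j := by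
    intro j
    simp only [hb]
    rw [hBc]
    exact roth_ge (j + J)
  have hbpos : ∀ j, 0 < b j := fun j => lt_of_lt_of_le (Real.exp_pos _) (hbge j)
  have hbmono : ∀ j, b j ≤ b (j + 1) := by
    intro j
    simp only [hb]
    rw [hBc, hBc]
    have : rothNumberNat (nn (j + J)) ≤ rothNumberNat (nn (j + 1 + J)) :=
      rothNumberNat.mono (nn_mono (by omega))
    exact_mod_cast this
  set ρ : ℕ → ℝ := fun j => Real.exp (-((j + 1) * Real.log (4 * Λ))) with hρ
  have hρpos : ∀ j, 0 < ρ j := fun j => Real.exp_pos _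
  have hρ1 : ∀ j, ρ j ≤ 1 := by
    intro j
    simp only [hρ]
    apply Real.exp_le_one_iff.2
    have : 0 ≤ ((j : ℝ) + 1) * Real.log (4 * Λ) := by positivity
    linarith
  have hρeq : ∀ j : ℕ, ρ j * (4 * Λ) ^ (j + 1) = 1 := by
    intro j
    simp only [hρ]
    have h4 : 0 < 4 * Λ := by linarith
    have : (4 * Λ) ^ (j + 1) = Real.exp (((j : ℝ) + 1) * Real.log (4 * Λ)) := by
      rw [← Real.exp_log (pow_pos h4 (j + 1)), Real.log_pow]
      push_cast
      rfl
    rw [this, ← Real.exp_add]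
    simp
  have hbα : ∀ j : ℕ, Real.exp (α * (((j + J : ℕ) : ℝ) ^ 2 * L - 4 * (((j + J : ℕ) : ℝ) * √L))) ≤
      b j ^ α := by
    intro j
    rw [mul_comm α, Real.exp_mul]
    exact Real.rpow_le_rpow (Real.exp_pos _).le (hbge j) hα0.le
  have hcount : ∀ j : ℕ, Real.exp (α * (((j + J : ℕ) : ℝ) ^ 2 * L -
      4 * (((j + J : ℕ) : ℝ) * √L)) - (j + 1) * Real.log (4 * Λ)) ≤ b j ^ α * ρ j := by
    intro j
    rw [sub_eq_add_neg, Real.exp_add]
    exact mul_le_mul_of_nonneg_right (hbα j) (hρpos j).le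
  have hone : ∀ j : ℕ, 1 ≤ b j ^ α * ρ j := by
    intro j
    refine le_trans ?_ (hcount j)
    apply Real.one_le_exp
    have e1 : (J : ℝ) ≤ ((j + J : ℕ) : ℝ) := by push_cast; linarith [(Nat.cast_nonneg j : (0:ℝ) ≤ j)]
    have e2 : (j : ℝ) + 1 ≤ ((j + J : ℕ) : ℝ) := by
      push_cast
      have : (1 : ℝ) ≤ J := by exact_mod_cast hJ1
      linarith
    set t : ℝ := ((j + J : ℕ) : ℝ) with ht
    have ht0 : 0 ≤ t := by rw [ht]; positivity
    have h3 : Real.log (4 * Λ) ≤ α * (t * L - 4 * √L) := by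
      refine hJ2.trans ?_
      refine mul_le_mul_of_nonneg_left ?_ hα0.le
      have := mul_le_mul_of_nonneg_right e1 hL0.le
      linarith
    have h4 : t * Real.log (4 * Λ) ≤ t * (α * (t * L - 4 * √L)) :=
      mul_le_mul_of_nonneg_left h3 ht0
    have h5 : (j + 1) * Real.log (4 * Λ) ≤ t * Real.log (4 * Λ) :=
      mul_le_mul_of_nonneg_right e2 hlΛ
    nlinarith
  -- the inductive predicate
  let P : ℕ → Finset ℤ → Prop := fun j A =>
    (∀ a ∈ A, 1 ≤ a ∧ 4 * a < 2 * (nn (j + J) : ℤ)) ∧ ThreeAPFree (A : Set ℤ) ∧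
      grids (Fin h) (Fin g) A = ∅ ∧
      ∀ m n, 1 ≤ m → m ≤ h → 1 ≤ n → n ≤ g →
        (G (Fin m) (Fin n) A : ℝ) ≤ Λ ^ j * (b j) ^ (ee h g m n)
  let R : ℕ → Finset ℤ → Finset ℤ → Prop := fun j A A' =>
    A ⊆ A' ∧ ∃ S ⊆ A', (∀ s ∈ S, s < 3 * (nn (j + J) : ℤ)) ∧ b j ^ α * ρ j / 4 ≤ S.card
  have hstep : ∀ j, ∀ A : {A // P j A}, ∃ A' : {A' // P (j + 1) A'}, R j A A' := by
    rintro j ⟨A, hA1, hA2, hA3, hA4⟩
    have sep : Sep A (B j) (2 * (nn (j + J) : ℤ)) := by
      refine ⟨?_, hA1, ?_⟩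
      · have := nn_pos (j + J)
        positivity
      · intro s hs
        have := hBr j s hs
        constructor <;> linarith
    have hQ : (1 : ℝ) ≤ Λ ^ j := one_le_pow₀ hΛ
    have hQρ : 4 * ((h * g * (2 ^ h + 2 ^ g) : ℝ) * Λ ^ j * ρ j) ≤ 1 := by
      have h1 : (h * g * (2 ^ h + 2 ^ g) : ℝ) ≤ Λ := by
        rw [hΛd]; unfold Lam; linarith
      have h2 : 0 ≤ Λ ^ j * ρ j := mul_nonneg (by positivity) (hρpos j).le
      have h3 : (h * g * (2 ^ h + 2 ^ g) : ℝ) * (Λ ^ j * ρ j) ≤ Λ * (Λ ^ j * ρ j) :=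
        mul_le_mul_of_nonneg_right h1 h2
      have h4 := hρeq j
      have h5 : (4 * Λ) ^ (j + 1) = 4 ^ j * (4 * Λ ^ (j + 1)) := by
        rw [mul_pow, pow_succ 4]
        ring
      have h6 : (1 : ℝ) ≤ 4 ^ j := one_le_pow₀ (by norm_num)
      have h7 : 0 ≤ ρ j * (4 * Λ ^ (j + 1)) := by
        have := hρpos j
        positivity
      have h8 : ρ j * (4 * Λ ^ (j + 1)) ≤ 1 := by
        have h9 : 4 ^ j * (ρ j * (4 * Λ ^ (j + 1))) = 1 := by
          rw [← h4, h5]; ring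
        nlinarith
      calc 4 * ((h * g * (2 ^ h + 2 ^ g) : ℝ) * Λ ^ j * ρ j)
          = 4 * ((h * g * (2 ^ h + 2 ^ g) : ℝ) * (Λ ^ j * ρ j)) := by ring
        _ ≤ 4 * (Λ * (Λ ^ j * ρ j)) := by linarith
        _ = ρ j * (4 * Λ ^ (j + 1)) := by rw [pow_succ]; ring
        _ ≤ 1 := h8
    obtain ⟨S, hSB, hS1, hS2, hS3⟩ := step hh hg sep hQ (hρpos j) (hρ1 j) (hone j) hQρ hA4 hA3
    refine ⟨⟨A ∪ S, ?_, ?_, hS2, ?_⟩, ?_, S, ?_, ?_, hS1⟩
    · intro a ha
      have hn := nn_succ (t := j + J) (by omega)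
      have hn' : (8 : ℤ) * (nn (j + J) : ℤ) ≤ (nn (j + J + 1) : ℤ) := by exact_mod_cast hn
      have e : j + 1 + J = j + J + 1 := by ring
      rw [e]
      rw [mem_union] at ha
      rcases ha with ha | ha
      · have := hA1 a ha
        refine ⟨this.1, ?_⟩
        have h2 : (0 : ℤ) < nn (j + J) := by exact_mod_cast nn_pos _
        linarith
      · have := hBr j a (hSB ha)
        have h2 : (0 : ℤ) < nn (j + J) := by exact_mod_cast nn_pos _
        constructor <;> linarith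
    · exact apfree_union sep hSB hA2 (hBf j)
    · intro m n hm1 hmh hn1 hng
      refine (hS3 m n hm1 hmh hn1 hng).trans ?_
      have he : 0 ≤ ee h g m n := by
        have := ee_ge hh hg hm1 hmh hn1 hng
        linarith
      have h1 : b j ^ (ee h g m n) ≤ b (j + 1) ^ (ee h g m n) :=
        Real.rpow_le_rpow (hbpos j).le (hbmono j) he
      have h2 : Λ ^ j * (1 + (h * g * (2 ^ h + 2 ^ g) : ℝ)) = Λ ^ (j + 1) := by
        rw [pow_succ]; rfl
      rw [h2]
      exact mul_le_mul_of_nonneg_left h1 (by positivity)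
    · exact subset_union_left
    · exact subset_union_right
    · intro s hs
      exact (hBr j s (hSB hs)).2
  choose next hnext using hstep
  have hP0 : P 0 ∅ := by
    refine ⟨by simp, ?_, ?_, ?_⟩
    · intro a ha
      simp at ha
    · rw [Finset.eq_empty_iff_forall_notMem]
      intro z hz
      rw [mem_grids] at hz
      have := hz.1 (⟨0, by omega⟩, ⟨0, by omega⟩)
      simp at this
    · intro m n hm1 hmh hn1 hng
      have : G (Fin m) (Fin n) ∅ = 0 := by
        unfold G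
        rw [Finset.card_eq_zero, Finset.eq_empty_iff_forall_notMem]
        intro z hz
        rw [mem_grids] at hz
        have := hz.1 (⟨0, by omega⟩, ⟨0, by omega⟩)
        simp at this
      rw [this]
      have := hbpos 0
      simp only [Nat.cast_zero]
      positivity
  let seq : ∀ j, {A // P j A} := fun j =>
    Nat.rec (motive := fun j => {A // P j A}) ⟨∅, hP0⟩ (fun j A => next j A) j
  have hseq : ∀ j, R j (seq j).1 (seq (j + 1)).1 := fun j => hnext j (seq j)
  refine ⟨fun j => (seq j).1, fun j => (hseq j).1, fun j a ha => ((seq j).2.1 a ha).1,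
    fun j => (seq j).2.2.1, fun j => (seq j).2.2.2.1, ?_⟩
  intro j
  obtain ⟨S, hS1, hS2, hS3⟩ := (hseq j).2
  refine ⟨S, hS1, hS2, ?_⟩
  refine le_trans ?_ hS3
  have := hcount j
  linarith

end Pool.Agent.T2H39.Chg
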