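import Pool.Agent.T2H39.Chg.Struct

set_option autoImplicit false

open Finset

namespace Pool.Agent.T2H39.Chg

/-- `θ = (h+g-2)/(hg-1)` -/
noncomputable def θ (h g : ℕ) : ℝ := ((h : ℝ) + g - 2) / ((h : ℝ) * g - 1)

/-- the exponent of the number of `m × n` grids -/
noncomputable def ee (h g : ℕ) (m n : ℕ) : ℝ := (m : ℝ) + n - 1 - θ h g * m * n

theorem hg_pos {h g : ℕ} (hh : 2 ≤ h) (hg : 2 ≤ g) : (0 : ℝ) < (h : ℝ) * g - 1 := by
  have h1 : (2 : ℝ) ≤ h := by exact_mod_cast hh
  have h2 : (2 : ℝ) ≤ g := by exact_mod_cast hg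
  nlinarith

theorem θ_pos {h g : ℕ} (hh : 2 ≤ h) (hg : 2 ≤ g) : 0 < θ h g := by
  have h1 : (2 : ℝ) ≤ h := by exact_mod_cast hh
  have h2 : (2 : ℝ) ≤ g := by exact_mod_cast hg
  exact div_pos (by linarith) (hg_pos hh hg)

theorem θ_lt_one {h g : ℕ} (hh : 2 ≤ h) (hg : 2 ≤ g) : θ h g < 1 := by
  have h1 : (2 : ℝ) ≤ h := by exact_mod_cast hh
  have h2 : (2 : ℝ) ≤ g := by exact_mod_cast hg
  unfold θ
  rw [div_lt_one (hg_pos hh hg)]
  nlinarith

theorem ee_ge {h g m n : ℕ} (hh : 2 ≤ h) (hg : 2 ≤ g) (hm1 : 1 ≤ m) (hmh : m ≤ h)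
    (hn1 : 1 ≤ n) (hng : n ≤ g) : 1 - θ h g ≤ ee h g m n := by
  unfold ee θ
  have h1 : (2 : ℝ) ≤ h := by exact_mod_cast hh
  have h2 : (2 : ℝ) ≤ g := by exact_mod_cast hg
  have h3 : (1 : ℝ) ≤ m := by exact_mod_cast hm1
  have h4 : (m : ℝ) ≤ h := by exact_mod_cast hmh
  have h5 : (1 : ℝ) ≤ n := by exact_mod_cast hn1
  have h6 : (n : ℝ) ≤ g := by exact_mod_cast hng
  have hp := hg_pos hh hg
  have key : ((h : ℝ) + g - 2) * (m * n - 1) ≤ ((m : ℝ) + n - 2) * ((h : ℝ) * g - 1) := by
    obtain ⟨a, ha⟩ : ∃ a : ℝ, a = m - 1 := ⟨_, rfl⟩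
    obtain ⟨c, hc⟩ : ∃ c : ℝ, c = n - 1 := ⟨_, rfl⟩
    obtain ⟨H, hH⟩ : ∃ H : ℝ, H = h - 1 := ⟨_, rfl⟩
    obtain ⟨K, hK⟩ : ∃ K : ℝ, K = g - 1 := ⟨_, rfl⟩
    have e1 : (m : ℝ) = a + 1 := by linarith
    have e2 : (n : ℝ) = c + 1 := by linarith
    have e3 : (h : ℝ) = H + 1 := by linarith
    have e4 : (g : ℝ) = K + 1 := by linarith
    rw [e1, e2, e3, e4]
    have ha0 : 0 ≤ a := by linarith
    have hc0 : 0 ≤ c := by linarith
    have hH0 : 0 ≤ H := by linarith
    have hK0 : 0 ≤ K := by linarith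
    have haH : 0 ≤ H - a := by linarith
    have hcK : 0 ≤ K - c := by linarith
    have t1 : 0 ≤ a * H * (K - c) := by positivity
    have t2 : 0 ≤ c * K * (H - a) := by positivity
    nlinarith
  have h7 : ((h : ℝ) + g - 2) / ((h : ℝ) * g - 1) * (m * n - 1) ≤ (m : ℝ) + n - 2 := by
    rw [div_mul_eq_mul_div, div_le_iff₀ hp]
    exact key
  nlinarith

theorem ee_top {h g : ℕ} (hh : 2 ≤ h) (hg : 2 ≤ g) : ee h g h g = 1 - θ h g := by
  unfold ee θ
  have hp := hg_pos hh hg
  field_simp
  ring

theorem ee_sub_row (h g m n r : ℕ) (hr : r ≤ m) :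
    ee h g (m - r) n + r - θ h g * (r * n) = ee h g m n := by
  unfold ee
  rw [Nat.cast_sub hr]
  ring

theorem ee_sub_col (h g m n r : ℕ) (hr : r ≤ n) :
    ee h g m (n - r) + r - θ h g * (r * m) = ee h g m n := by
  unfold ee
  rw [Nat.cast_sub hr]
  ring

theorem step {h g : ℕ} (hh : 2 ≤ h) (hg : 2 ≤ g) {A B : Finset ℤ} {N : ℤ} (sep : Sep A B N)
    {Q ρ : ℝ} (hQ : 1 ≤ Q) (hρ0 : 0 < ρ) (hρ1 : ρ ≤ 1)
    (hbρ : 1 ≤ (B.card : ℝ) ^ (1 - θ h g) * ρ)
    (hQρ : 4 * ((h * g * (2 ^ h + 2 ^ g) : ℝ) * Q * ρ) ≤ 1)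
    (hG : ∀ m n, 1 ≤ m → m ≤ h → 1 ≤ n → n ≤ g →
      (G (Fin m) (Fin n) A : ℝ) ≤ Q * (B.card : ℝ) ^ (ee h g m n))
    (hnone : grids (Fin h) (Fin g) A = ∅) :
    ∃ S ⊆ B, (B.card : ℝ) ^ (1 - θ h g) * ρ / 4 ≤ S.card ∧
      grids (Fin h) (Fin g) (A ∪ S) = ∅ ∧
      ∀ m n, 1 ≤ m → m ≤ h → 1 ≤ n → n ≤ g →
        (G (Fin m) (Fin n) (A ∪ S) : ℝ) ≤
          Q * (1 + (h * g * (2 ^ h + 2 ^ g) : ℝ)) * (B.card : ℝ) ^ (ee h g m n) := by
  classical
  set b : ℝ := (B.card : ℝ) with hb
  set α : ℝ := 1 - θ h g with hα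
  have hθ0 := θ_pos hh hg
  have hθ1 := θ_lt_one hh hg
  have hα0 : 0 < α := by rw [hα]; linarith
  have hα1 : α < 1 := by rw [hα]; linarith
  have hb0 : 0 ≤ b := by rw [hb]; positivity
  have hbc : 0 < B.card := by
    by_contra hc
    have : B.card = 0 := by omega
    rw [hb, this] at hbρ
    simp only [Nat.cast_zero] at hbρ
    rw [Real.zero_rpow hα0.ne'] at hbρ
    linarith
  have hb1 : 1 ≤ b := by rw [hb]; exact_mod_cast hbc
  have hbpos : 0 < b := by linarith
  set M : ℕ := ⌊b ^ α * ρ⌋₊ with hM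
  have hx0 : 0 ≤ b ^ α * ρ := by linarith
  have hMle : (M : ℝ) ≤ b ^ α * ρ := Nat.floor_le hx0
  have hMge : b ^ α * ρ / 2 ≤ M := by
    have h1 : b ^ α * ρ < M + 1 := Nat.lt_floor_add_one _
    have h2 : (1 : ℝ) ≤ M := by
      have : 1 ≤ M := Nat.le_floor (by simpa using hbρ)
      exact_mod_cast this
    linarith
  have hbα : b ^ α ≤ b := by
    calc b ^ α ≤ b ^ (1 : ℝ) := Real.rpow_le_rpow_of_exponent_le hb1 hα1.le
      _ = b := Real.rpow_one b
  have hMB : M ≤ B.card := by
    have : (M : ℝ) ≤ b := by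
      calc (M : ℝ) ≤ b ^ α * ρ := hMle
        _ ≤ b ^ α * 1 := mul_le_mul_of_nonneg_left hρ1 (by positivity)
        _ = b ^ α := mul_one _
        _ ≤ b := hbα
    rw [hb] at this
    exact_mod_cast this
  have hq0 : 0 ≤ (M : ℝ) / b := by positivity
  have hq : (M : ℝ) / b ≤ b ^ (-θ h g) * ρ := by
    rw [div_le_iff₀ hbpos]
    calc (M : ℝ) ≤ b ^ α * ρ := hMle
      _ = b ^ (-θ h g) * ρ * b := by
        have : b ^ α = b ^ (-θ h g) * b := by
          conv_rhs => rw [← Real.rpow_one b]
          rw [← Real.rpow_mul hb0, one_mul, ← Real.rpow_add hbpos, hα]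
          congr 1
          ring
        rw [this]
        ring
  -- powers of the density
  have hqt : ∀ t : ℕ, ((M : ℝ) / b) ^ t ≤ b ^ (-(θ h g * t)) * ρ ^ t := by
    intro t
    calc ((M : ℝ) / b) ^ t ≤ (b ^ (-θ h g) * ρ) ^ t := pow_le_pow_left₀ hq0 hq t
      _ = b ^ (-(θ h g * t)) * ρ ^ t := by
        rw [mul_pow, ← Real.rpow_natCast (b ^ (-θ h g)) t, ← Real.rpow_mul hb0]
        congr 2
        ring
  -- the common bound
  set Y : ℕ → ℕ → ℝ := fun m n => Q * b ^ (ee h g m n) * ρ ^ (min m n) with hY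
  have hYpos : ∀ m n, 0 < Y m n := by
    intro m n
    have : 0 < Q := by linarith
    simp only [hY]
    positivity
  have hρt : ∀ t k : ℕ, k ≤ t → ρ ^ t ≤ ρ ^ k := fun t k hkt =>
    pow_le_pow_of_le_one hρ0.le hρ1 hkt
  have hexp : ∀ m n, 1 ≤ m → m ≤ h → 1 ≤ n → n ≤ g →
      (∑ S ∈ powersetCard M B, ((X (Fin m) (Fin n) A S).card : ℝ)) ≤
        (B.card.choose M : ℝ) * ((2 ^ h + 2 ^ g) * Y m n) := by
    intro m n hm1 hmh hn1 hng
    have : Nonempty (Fin m) := ⟨⟨0, hm1⟩⟩
    have : Nonempty (Fin n) := ⟨⟨0, hn1⟩⟩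
    have hmain := expect_le (ι := Fin m) (κ := Fin n) sep M hMB hbc (Y m n) (hYpos m n).le
      (by
        intro R hR
        rw [Fintype.card_fin]
        have hr1 : 1 ≤ R.card := Finset.card_pos.2 (Finset.nonempty_iff_ne_empty.2 hR)
        have hrm : R.card ≤ m := by
          have := Finset.card_le_univ R
          simpa using this
        by_cases hRu : R = univ
        · subst hRu
          have hle : (rowZ (Fin m) (Fin n) A B univ).card ≤ B.card ^ n * B.card ^ (m - 1) := by
            have h1 : rowZ (Fin m) (Fin n) A B univ ⊆ grids (Fin m) (Fin n) B := by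
              intro z hz
              rw [mem_rowZ] at hz
              rw [mem_grids]
              exact ⟨fun c => hz.1 c (mem_univ _), hz.2.2⟩
            refine (card_le_card h1).trans ?_
            have := card_full_le (ι := Fin m) (κ := Fin n) B ⟨0, hm1⟩ ⟨0, hn1⟩
            simpa using this
          have hle' : ((rowZ (Fin m) (Fin n) A B univ).card : ℝ) ≤ b ^ ((m : ℝ) + n - 1) := by
            have h2 : ((rowZ (Fin m) (Fin n) A B univ).card : ℝ) ≤ b ^ n * b ^ (m - 1) := by
              rw [hb]; exact_mod_cast hle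
            refine h2.trans (le_of_eq ?_)
            rw [← pow_add, ← Real.rpow_natCast]
            congr 1
            push_cast [Nat.cast_sub hm1]
            ring
          have hcu : (univ : Finset (Fin m)).card * n = m * n := by simp
          rw [hcu]
          calc ((rowZ (Fin m) (Fin n) A B univ).card : ℝ) * ((M : ℝ) / b) ^ (m * n)
              ≤ b ^ ((m : ℝ) + n - 1) * (b ^ (-(θ h g * ((m * n : ℕ) : ℝ))) * ρ ^ (m * n)) :=
                mul_le_mul hle' (hqt _) (by positivity) (by positivity)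
            _ = b ^ (ee h g m n) * ρ ^ (m * n) := by
                rw [← mul_assoc, ← Real.rpow_add hbpos]
                congr 2
                unfold ee
                push_cast
                ring
            _ ≤ Q * b ^ (ee h g m n) * ρ ^ (min m n) := by
                have h3 : ρ ^ (m * n) ≤ ρ ^ (min m n) := by
                  apply hρt
                  calc min m n ≤ m := min_le_left _ _
                    _ ≤ m * n := Nat.le_mul_of_pos_right _ hn1
                have h4 : b ^ (ee h g m n) ≤ Q * b ^ (ee h g m n) := by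
                  have : 0 ≤ b ^ (ee h g m n) := by positivity
                  nlinarith
                exact mul_le_mul h4 h3 (by positivity) (by positivity)
        · have hne : ∃ i₀, i₀ ∉ R := by
            by_contra hcon
            push Not at hcon
            exact hRu (Finset.eq_univ_iff_forall.2 hcon)
          obtain ⟨i₀, hi₀⟩ := hne
          have hrlt : R.card < m := by
            have := Finset.card_lt_univ_of_notMem hi₀
            simpa using this
          have h1 := card_rowZ_le (ι := Fin m) (κ := Fin n) A B R i₀ hi₀ ⟨0, hn1⟩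
          rw [Fintype.card_fin, Fintype.card_fin] at h1
          have h2 := hG (m - R.card) n (by omega) (by omega) hn1 hng
          have h3 : ((rowZ (Fin m) (Fin n) A B R).card : ℝ) ≤
              Q * b ^ (ee h g (m - R.card) n) * b ^ R.card := by
            calc ((rowZ (Fin m) (Fin n) A B R).card : ℝ)
                ≤ ((G (Fin (m - R.card)) (Fin n) A * B.card ^ R.card : ℕ) : ℝ) := by
                  exact_mod_cast h1
              _ = (G (Fin (m - R.card)) (Fin n) A : ℝ) * b ^ R.card := by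
                  push_cast
                  rfl
              _ ≤ Q * b ^ (ee h g (m - R.card) n) * b ^ R.card :=
                  mul_le_mul_of_nonneg_right h2 (by positivity)
          calc ((rowZ (Fin m) (Fin n) A B R).card : ℝ) * ((M : ℝ) / b) ^ (R.card * n)
              ≤ (Q * b ^ (ee h g (m - R.card) n) * b ^ R.card) *
                (b ^ (-(θ h g * ((R.card * n : ℕ) : ℝ))) * ρ ^ (R.card * n)) :=
                mul_le_mul h3 (hqt _) (by positivity) (by positivity)
            _ = Q * b ^ (ee h g m n) * ρ ^ (R.card * n) := by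
                have : b ^ (ee h g m n) = b ^ (ee h g (m - R.card) n) * b ^ R.card *
                    b ^ (-(θ h g * ((R.card * n : ℕ) : ℝ))) := by
                  rw [← Real.rpow_natCast b R.card, ← Real.rpow_add hbpos,
                    ← Real.rpow_add hbpos, ← ee_sub_row h g m n R.card hrm]
                  congr 1
                  push_cast
                  ring
                rw [this]
                ring
            _ ≤ Q * b ^ (ee h g m n) * ρ ^ (min m n) := by
                have h4 : ρ ^ (R.card * n) ≤ ρ ^ (min m n) := by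
                  apply hρt
                  calc min m n ≤ n := min_le_right _ _
                    _ ≤ R.card * n := Nat.le_mul_of_pos_left _ hr1
                exact mul_le_mul_of_nonneg_left h4 (by positivity))
      (by
        intro R hR hRu
        rw [Fintype.card_fin]
        have hr1 : 1 ≤ R.card := Finset.card_pos.2 (Finset.nonempty_iff_ne_empty.2 hR)
        have hrm : R.card ≤ n := by
          have := Finset.card_le_univ R
          simpa using this
        have hne : ∃ i₀, i₀ ∉ R := by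
          by_contra hcon
          push Not at hcon
          exact hRu (Finset.eq_univ_iff_forall.2 hcon)
        obtain ⟨i₀, hi₀⟩ := hne
        have hrlt : R.card < n := by
          have := Finset.card_lt_univ_of_notMem hi₀
          simpa using this
        have h1 := card_rowZ_le (ι := Fin n) (κ := Fin m) A B R i₀ hi₀ ⟨0, hm1⟩
        rw [Fintype.card_fin, Fintype.card_fin, G_swap] at h1
        have h2 := hG m (n - R.card) hm1 hmh (by omega) (by omega)
        have h3 : ((rowZ (Fin n) (Fin m) A B R).card : ℝ) ≤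
            Q * b ^ (ee h g m (n - R.card)) * b ^ R.card := by
          calc ((rowZ (Fin n) (Fin m) A B R).card : ℝ)
              ≤ ((G (Fin m) (Fin (n - R.card)) A * B.card ^ R.card : ℕ) : ℝ) := by
                exact_mod_cast h1
            _ = (G (Fin m) (Fin (n - R.card)) A : ℝ) * b ^ R.card := by
                push_cast
                rfl
            _ ≤ Q * b ^ (ee h g m (n - R.card)) * b ^ R.card :=
                mul_le_mul_of_nonneg_right h2 (by positivity)
        calc ((rowZ (Fin n) (Fin m) A B R).card : ℝ) * ((M : ℝ) / b) ^ (R.card * m)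
            ≤ (Q * b ^ (ee h g m (n - R.card)) * b ^ R.card) *
              (b ^ (-(θ h g * ((R.card * m : ℕ) : ℝ))) * ρ ^ (R.card * m)) :=
              mul_le_mul h3 (hqt _) (by positivity) (by positivity)
          _ = Q * b ^ (ee h g m n) * ρ ^ (R.card * m) := by
              have : b ^ (ee h g m n) = b ^ (ee h g m (n - R.card)) * b ^ R.card *
                  b ^ (-(θ h g * ((R.card * m : ℕ) : ℝ))) := by
                rw [← Real.rpow_natCast b R.card, ← Real.rpow_add hbpos,
                  ← Real.rpow_add hbpos, ← ee_sub_col h g m n R.card hrm]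
                congr 1
                push_cast
                ring
              rw [this]
              ring
          _ ≤ Q * b ^ (ee h g m n) * ρ ^ (min m n) := by
              have h4 : ρ ^ (R.card * m) ≤ ρ ^ (min m n) := by
                apply hρt
                calc min m n ≤ m := min_le_left _ _
                  _ ≤ R.card * m := Nat.le_mul_of_pos_left _ hr1
              exact mul_le_mul_of_nonneg_left h4 (by positivity))
    refine hmain.trans ?_
    rw [Fintype.card_fin, Fintype.card_fin]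
    refine mul_le_mul_of_nonneg_left ?_ (by positivity)
    refine mul_le_mul_of_nonneg_right ?_ (hYpos m n).le
    refine add_le_add ?_ ?_
    · exact pow_le_pow_right₀ (by norm_num) hmh
    · exact pow_le_pow_right₀ (by norm_num) hng
  -- averaging
  set K : ℝ := (2 ^ h + 2 ^ g : ℝ) with hK
  have hKpos : 0 < K := by rw [hK]; positivity
  set I : Finset (ℕ × ℕ) := Finset.Icc 1 h ×ˢ Finset.Icc 1 g with hI
  have hIcard : (I.card : ℝ) = h * g := by
    rw [hI, card_product]
    simp
  have hpne : (powersetCard M B).Nonempty := powersetCard_nonempty.2 hMB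
  obtain ⟨F, hF⟩ : ∃ F : Finset ℤ → ℕ × ℕ → ℝ, ∀ S p, F S p =
      ((X (Fin p.1) (Fin p.2) A S).card : ℝ) / (K * Y p.1 p.2) := ⟨_, fun _ _ => rfl⟩
  have hFnn : ∀ S p, 0 ≤ F S p := by
    intro S p
    rw [hF]
    have := hYpos p.1 p.2
    positivity
  have hsum : (∑ S ∈ powersetCard M B, ∑ p ∈ I, F S p) ≤
        ∑ S ∈ powersetCard M B, (h * g : ℝ) := by
    rw [Finset.sum_comm, Finset.sum_const, card_powersetCard, nsmul_eq_mul, ← hIcard]
    calc (∑ p ∈ I, ∑ S ∈ powersetCard M B, F S p)
        ≤ ∑ p ∈ I, (B.card.choose M : ℝ) := by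
          refine Finset.sum_le_sum fun p hp => ?_
          rw [hI, mem_product, mem_Icc, mem_Icc] at hp
          simp only [hF]
          rw [← Finset.sum_div, div_le_iff₀ (mul_pos hKpos (hYpos _ _))]
          exact hexp p.1 p.2 hp.1.1 hp.1.2 hp.2.1 hp.2.2
      _ = (B.card.choose M : ℝ) * I.card := by
          rw [Finset.sum_const, nsmul_eq_mul, mul_comm]
  obtain ⟨S, hS, hSle⟩ := Finset.exists_le_of_sum_le hpne hsum
  rw [mem_powersetCard] at hS
  have hXle : ∀ m n, 1 ≤ m → m ≤ h → 1 ≤ n → n ≤ g →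
      ((X (Fin m) (Fin n) A S).card : ℝ) ≤ (h * g : ℝ) * (K * Y m n) := by
    intro m n hm1 hmh hn1 hng
    have hmem : (m, n) ∈ I := by
      rw [hI, mem_product, mem_Icc, mem_Icc]
      exact ⟨⟨hm1, hmh⟩, ⟨hn1, hng⟩⟩
    have h1 : F S (m, n) ≤ ∑ p ∈ I, F S p :=
      Finset.single_le_sum (fun p _ => hFnn S p) hmem
    have h2 := h1.trans hSle
    rw [hF] at h2
    rwa [div_le_iff₀ (mul_pos hKpos (hYpos _ _))] at h2
  -- deletion
  have hchoose : ∀ z : Fin h × Fin g → ℤ, ∃ s : ℤ, z ∈ X (Fin h) (Fin g) A S →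
      (s ∈ S ∧ ∃ c, z c = s) := by
    intro z
    by_cases hz : z ∈ X (Fin h) (Fin g) A S
    · rw [mem_X] at hz
      obtain ⟨h1, h2, h3⟩ := hz
      push Not at h3
      obtain ⟨c, hc⟩ := h3
      exact ⟨z c, fun _ => ⟨(h1 c).resolve_left hc, c, rfl⟩⟩
    · exact ⟨0, fun h => absurd h hz⟩
  choose f hf using hchoose
  set D : Finset ℤ := (X (Fin h) (Fin g) A S).image f with hD
  have hDcard : (D.card : ℝ) ≤ b ^ α * ρ / 4 := by
    have h1 : (D.card : ℝ) ≤ ((X (Fin h) (Fin g) A S).card : ℝ) := by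
      exact_mod_cast card_image_le
    refine h1.trans ((hXle h g (by omega) le_rfl (by omega) le_rfl).trans ?_)
    simp only [hY]
    rw [ee_top hh hg]
    have h2 : ρ ^ (min h g) ≤ ρ ^ 2 := hρt _ _ (le_min hh hg)
    have h3 : 4 * ((h * g * K : ℝ) * Q * ρ) ≤ 1 := hQρ
    have h4 : 0 ≤ b ^ (1 - θ h g) := by positivity
    calc (h * g : ℝ) * (K * (Q * b ^ (1 - θ h g) * ρ ^ (min h g)))
        ≤ (h * g : ℝ) * (K * (Q * b ^ (1 - θ h g) * ρ ^ 2)) := by
          refine mul_le_mul_of_nonneg_left ?_ (by positivity)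
          refine mul_le_mul_of_nonneg_left ?_ hKpos.le
          exact mul_le_mul_of_nonneg_left h2 (by positivity)
      _ = (4 * ((h * g * K : ℝ) * Q * ρ)) * (b ^ (1 - θ h g) * ρ / 4) := by ring
      _ ≤ 1 * (b ^ (1 - θ h g) * ρ / 4) := mul_le_mul_of_nonneg_right h3 (by positivity)
      _ = b ^ α * ρ / 4 := by rw [one_mul]
  have hdisj : ∀ x, x ∈ A → x ∈ S → False := by
    intro x hxA hxS
    have h1 := (sep.old x hxA).2
    have h2 := (sep.new x (hS.1 hxS)).1
    have h3 := (sep.old x hxA).1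
    linarith
  refine ⟨S \ D, sdiff_subset.trans hS.1, ?_, ?_, ?_⟩
  · have h1 : (S.card : ℝ) - D.card ≤ ((S \ D).card : ℝ) := by
      have : S.card ≤ (S \ D).card + D.card := by
        have := card_le_card_sdiff_add_card (s := S) (t := D)
        omega
      have h2 : (S.card : ℝ) ≤ ((S \ D).card : ℝ) + D.card := by exact_mod_cast this
      linarith
    have h2 : (S.card : ℝ) = M := by rw [hS.2]
    linarith
  · rw [Finset.eq_empty_iff_forall_notMem]
    intro z hz
    rw [mem_grids] at hz
    obtain ⟨hz1, hz2⟩ := hz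
    by_cases hzA : ∀ c, z c ∈ A
    · have : z ∈ grids (Fin h) (Fin g) A := mem_grids.2 ⟨hzA, hz2⟩
      rw [hnone] at this
      simp at this
    · have hzX : z ∈ X (Fin h) (Fin g) A S := by
        rw [mem_X]
        refine ⟨fun c => ?_, hz2, hzA⟩
        have := hz1 c
        rw [mem_union, mem_sdiff] at this
        tauto
      obtain ⟨h1, c, hc⟩ := hf z hzX
      have h2 := hz1 c
      rw [hc, mem_union, mem_sdiff] at h2
      rcases h2 with h2 | ⟨_, h2⟩
      · exact hdisj _ h2 h1
      · exact h2 (by rw [hD]; exact mem_image_of_mem f hzX)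
  · intro m n hm1 hmh hn1 hng
    have h1 : G (Fin m) (Fin n) (A ∪ (S \ D)) ≤
        G (Fin m) (Fin n) A + (X (Fin m) (Fin n) A S).card := by
      unfold G
      rw [← card_union_of_disjoint]
      · refine card_le_card ?_
        intro z hz
        rw [mem_grids] at hz
        by_cases hzA : ∀ c, z c ∈ A
        · exact mem_union_left _ (mem_grids.2 ⟨hzA, hz.2⟩)
        · refine mem_union_right _ (mem_X.2 ⟨fun c => ?_, hz.2, hzA⟩)
          have := hz.1 c
          rw [mem_union, mem_sdiff] at this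
          tauto
      · rw [Finset.disjoint_left]
        intro z hz hz'
        rw [mem_X] at hz'
        rw [mem_grids] at hz
        exact hz'.2.2 hz.1
    have h2 := hG m n hm1 hmh hn1 hng
    have h3 := hXle m n hm1 hmh hn1 hng
    have h4 : (G (Fin m) (Fin n) (A ∪ (S \ D)) : ℝ) ≤
        (G (Fin m) (Fin n) A : ℝ) + (X (Fin m) (Fin n) A S).card := by exact_mod_cast h1
    have h5 : Y m n ≤ Q * b ^ (ee h g m n) := by
      simp only [hY]
      have : ρ ^ (min m n) ≤ 1 := pow_le_one₀ hρ0.le hρ1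
      have h6 : 0 ≤ Q * b ^ (ee h g m n) := by positivity
      nlinarith
    calc (G (Fin m) (Fin n) (A ∪ (S \ D)) : ℝ)
        ≤ Q * b ^ (ee h g m n) + (h * g : ℝ) * (K * Y m n) := by linarith
      _ ≤ Q * b ^ (ee h g m n) + (h * g : ℝ) * (K * (Q * b ^ (ee h g m n))) := by
          have : (h * g : ℝ) * (K * Y m n) ≤ (h * g : ℝ) * (K * (Q * b ^ (ee h g m n))) := by
            refine mul_le_mul_of_nonneg_left ?_ (by positivity)
            exact mul_le_mul_of_nonneg_left h5 hKpos.le
          linarith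
      _ = Q * (1 + (h * g * K : ℝ)) * b ^ (ee h g m n) := by ring

end Pool.Agent.T2H39.Chg
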