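import Pool.Agent.T2H39.Chg.Avg

set_option autoImplicit false

open Finset

namespace Pool.Agent.T2H39.Chg

/-- The geometric separation of the old set `A` and the new block. -/
structure Sep (A B : Finset ℤ) (N : ℤ) : Prop where
  posN : 0 < N
  old : ∀ a ∈ A, 1 ≤ a ∧ 4 * a < N
  new : ∀ s ∈ B, N ≤ s ∧ 2 * s < 3 * N

theorem Sep.mono {A B S : Finset ℤ} {N : ℤ} (h : Sep A B N) (hS : S ⊆ B) : Sep A S N :=
  ⟨h.posN, h.old, fun s hs => h.new s (hS hs)⟩

/-- grids of `A ∪ S` that are not grids of `A` -/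
noncomputable def X (ι κ : Type) [Fintype ι] [Fintype κ] (A S : Finset ℤ) :
    Finset (ι × κ → ℤ) := by
  classical
  exact (grids ι κ (A ∪ S)) \ (grids ι κ A)

theorem mem_X {ι κ : Type} [Fintype ι] [Fintype κ] {A S : Finset ℤ} {z : ι × κ → ℤ} :
    z ∈ X ι κ A S ↔ (∀ c, z c ∈ A ∨ z c ∈ S) ∧ IsGrid z ∧ ¬ ∀ c, z c ∈ A := by
  classical
  simp only [X, mem_sdiff, mem_grids, mem_union]
  tauto

theorem struct {ι κ : Type} [Fintype ι] [Fintype κ] [Nonempty ι] [Nonempty κ]
    {A S : Finset ℤ} {N : ℤ} (h : Sep A S N)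
    {z : ι × κ → ℤ} (hz : z ∈ X ι κ A S) :
    (∃ R : Finset ι, R ≠ ∅ ∧ z ∈ rowZ ι κ A S R) ∨
      (∃ C : Finset κ, C ≠ ∅ ∧ C ≠ univ ∧ (fun c : κ × ι => z (c.2, c.1)) ∈ rowZ κ ι A S C) := by
  classical
  rw [mem_X] at hz
  obtain ⟨hv, hg, hnA⟩ := hz
  have hA : ∀ c, z c ∉ S → z c ∈ A := fun c hc => (hv c).resolve_right hc
  have hpos : ∀ c, 1 ≤ z c := by
    intro c
    rcases hv c with h1 | h1
    · exact (h.old _ h1).1
    · have := (h.new _ h1).1
      have := h.posN
      linarith
  have hub : ∀ c, 2 * z c < 3 * N := by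
    intro c
    rcases hv c with h1 | h1
    · have := (h.old _ h1).2
      have := h.posN
      have := (h.old _ h1).1
      linarith
    · exact (h.new _ h1).2
  have hP := pattern_dichotomy (fun c : ι × κ => z c ∈ S) (by
    intro i i' j j'
    have hrel := hg.2 i i' j j'
    refine ⟨?_, ?_⟩
    · rintro ⟨h1, h2⟩
      have a1 := (h.new _ h1).1
      have a2 := (h.new _ h2).1
      refine ⟨?_, ?_⟩
      · by_contra hc
        have a3 := (h.old _ (hA _ hc)).2
        have a4 := hub (i', j)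
        have := h.posN
        linarith
      · by_contra hc
        have a3 := (h.old _ (hA _ hc)).2
        have a4 := hub (i, j')
        have := h.posN
        linarith
    · rintro ⟨h1, h2⟩
      have a1 := (h.old _ (hA _ h1)).2
      have a2 := (h.old _ (hA _ h2)).2
      refine ⟨?_, ?_⟩
      · intro hc
        have a3 := (h.new _ hc).1
        have a4 := hpos (i', j)
        have := h.posN
        linarith
      · intro hc
        have a3 := (h.new _ hc).1
        have a4 := hpos (i, j')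
        have := h.posN
        linarith)
  obtain ⟨i₀⟩ := (inferInstance : Nonempty ι)
  obtain ⟨j₀⟩ := (inferInstance : Nonempty κ)
  -- the row case
  have hrow : (∀ i j j', z (i, j) ∈ S ↔ z (i, j') ∈ S) →
      (∃ R : Finset ι, R ≠ ∅ ∧ z ∈ rowZ ι κ A S R) := by
    intro hP
    refine ⟨univ.filter (fun i => z (i, j₀) ∈ S), ?_, ?_⟩
    · intro hR
      apply hnA
      rintro ⟨i, j⟩
      apply hA
      intro hc
      have : i ∈ univ.filter (fun i => z (i, j₀) ∈ S) := by
        simp only [mem_filter, mem_univ, true_and]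
        exact (hP i j j₀).1 hc
      rw [hR] at this
      simp at this
    · rw [mem_rowZ]
      refine ⟨?_, ?_, hg⟩
      · rintro ⟨i, j⟩ hi
        simp only [mem_filter, mem_univ, true_and] at hi
        exact (hP i j₀ j).1 hi
      · rintro ⟨i, j⟩ hi
        simp only [mem_filter, mem_univ, true_and] at hi
        exact hA _ (fun hc => hi ((hP i j j₀).1 hc))
  rcases hP with hP | hP
  · exact Or.inl (hrow hP)
  · by_cases hall : ∀ j, z (i₀, j) ∈ S
    · refine Or.inl (hrow ?_)
      intro i j j'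
      have h1 : z (i, j) ∈ S := (hP i₀ i j).1 (hall j)
      have h2 : z (i, j') ∈ S := (hP i₀ i j').1 (hall j')
      simp [h1, h2]
    · right
      refine ⟨univ.filter (fun j => z (i₀, j) ∈ S), ?_, ?_, ?_⟩
      · intro hR
        apply hnA
        rintro ⟨i, j⟩
        apply hA
        intro hc
        have : j ∈ univ.filter (fun j => z (i₀, j) ∈ S) := by
          simp only [mem_filter, mem_univ, true_and]
          exact (hP i i₀ j).1 hc
        rw [hR] at this
        simp at this
      · intro hC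
        apply hall
        intro j
        have : j ∈ univ.filter (fun j => z (i₀, j) ∈ S) := by rw [hC]; exact mem_univ _
        simpa using this
      · rw [mem_rowZ]
        refine ⟨?_, ?_, hg.swap⟩
        · rintro ⟨j, i⟩ hj
          simp only [mem_filter, mem_univ, true_and] at hj
          exact (hP i₀ i j).1 hj
        · rintro ⟨j, i⟩ hj
          simp only [mem_filter, mem_univ, true_and] at hj
          exact hA _ (fun hc => hj ((hP i i₀ j).1 hc))

open Classical in
theorem card_X_le {ι κ : Type} [Fintype ι] [Fintype κ] [Nonempty ι] [Nonempty κ]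
    {A B S : Finset ℤ} {N : ℤ} (h : Sep A B N) (hS : S ⊆ B) :
    (X ι κ A S).card ≤
      (∑ R ∈ (univ : Finset (Finset ι)).filter (fun R => R ≠ ∅),
        (sub (rowZ ι κ A B R) (R ×ˢ (univ : Finset κ)) S).card) +
      (∑ C ∈ (univ : Finset (Finset κ)).filter (fun C => C ≠ ∅ ∧ C ≠ univ),
        (sub (rowZ κ ι A B C) (C ×ˢ (univ : Finset ι)) S).card) := by
  have hsub : X ι κ A S ⊆
      (((univ : Finset (Finset ι)).filter (fun R => R ≠ ∅)).biUnion (fun R =>
        sub (rowZ ι κ A B R) (R ×ˢ (univ : Finset κ)) S)) ∪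
      (((univ : Finset (Finset κ)).filter (fun C => C ≠ ∅ ∧ C ≠ univ)).biUnion (fun C =>
        (sub (rowZ κ ι A B C) (C ×ˢ (univ : Finset ι)) S).image
          (fun z c => z (c.2, c.1)))) := by
    intro z hz
    rcases struct (h.mono hS) hz with ⟨R, hR, hzR⟩ | ⟨C, hC, hC', hzC⟩
    · refine mem_union_left _ (mem_biUnion.2 ⟨R, by simpa using hR, ?_⟩)
      rw [mem_rowZ] at hzR
      rw [mem_sub, mem_rowZ]
      refine ⟨⟨fun c hc => hS (hzR.1 c hc), hzR.2⟩, ?_⟩
      intro c hc
      rw [mem_product] at hc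
      exact hzR.1 c hc.1
    · refine mem_union_right _ (mem_biUnion.2 ⟨C, by simp [hC, hC'], ?_⟩)
      rw [mem_rowZ] at hzC
      refine mem_image.2 ⟨fun c : κ × ι => z (c.2, c.1), ?_, rfl⟩
      rw [mem_sub, mem_rowZ]
      refine ⟨⟨fun c hc => hS (hzC.1 c hc), hzC.2⟩, ?_⟩
      intro c hc
      rw [mem_product] at hc
      exact hzC.1 c hc.1
  refine (card_le_card hsub).trans ((card_union_le _ _).trans (Nat.add_le_add ?_ ?_))
  · exact card_biUnion_le
  · exact card_biUnion_le.trans (Finset.sum_le_sum fun C _ => card_image_le)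

open Classical in
theorem expect_le {ι κ : Type} [Fintype ι] [Fintype κ] [Nonempty ι] [Nonempty κ]
    {A B : Finset ℤ} {N : ℤ} (h : Sep A B N) (M : ℕ) (hMB : M ≤ B.card) (hB : 0 < B.card)
    (Y : ℝ) (hY0 : 0 ≤ Y)
    (hY1 : ∀ R : Finset ι, R ≠ ∅ →
      ((rowZ ι κ A B R).card : ℝ) * ((M : ℝ) / B.card) ^ (R.card * Fintype.card κ) ≤ Y)
    (hY2 : ∀ C : Finset κ, C ≠ ∅ → C ≠ univ →
      ((rowZ κ ι A B C).card : ℝ) * ((M : ℝ) / B.card) ^ (C.card * Fintype.card ι) ≤ Y) :
    (∑ S ∈ powersetCard M B, ((X ι κ A S).card : ℝ)) ≤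
      (B.card.choose M : ℝ) * ((2 ^ Fintype.card ι + 2 ^ Fintype.card κ) * Y) := by
  have hC0 : (0 : ℝ) ≤ (B.card.choose M : ℝ) := by positivity
  have h1 : ∀ R : Finset ι, R ≠ ∅ →
      (∑ S ∈ powersetCard M B, (((sub (rowZ ι κ A B R) (R ×ˢ (univ : Finset κ)) S).card : ℕ) : ℝ)) ≤
        (B.card.choose M : ℝ) * Y := by
    intro R hR
    have := sum_contain_le (rowZ ι κ A B R) (R ×ˢ (univ : Finset κ)) B M hMB hB (by
      intro z hz
      rw [mem_rowZ] at hz
      refine ⟨hz.2.2.1, fun c hc => hz.1 c (mem_product.1 hc).1⟩)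
    refine this.trans ?_
    rw [card_product, card_univ]
    calc ((rowZ ι κ A B R).card : ℝ) * ((B.card.choose M : ℝ) *
          ((M : ℝ) / B.card) ^ (R.card * Fintype.card κ))
        = (B.card.choose M : ℝ) * (((rowZ ι κ A B R).card : ℝ) *
          ((M : ℝ) / B.card) ^ (R.card * Fintype.card κ)) := by ring
      _ ≤ (B.card.choose M : ℝ) * Y := mul_le_mul_of_nonneg_left (hY1 R hR) hC0
  have h2 : ∀ C : Finset κ, C ≠ ∅ → C ≠ univ →
      (∑ S ∈ powersetCard M B, (((sub (rowZ κ ι A B C) (C ×ˢ (univ : Finset ι)) S).card : ℕ) : ℝ)) ≤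
        (B.card.choose M : ℝ) * Y := by
    intro C hC hC'
    have := sum_contain_le (rowZ κ ι A B C) (C ×ˢ (univ : Finset ι)) B M hMB hB (by
      intro z hz
      rw [mem_rowZ] at hz
      refine ⟨hz.2.2.1, fun c hc => hz.1 c (mem_product.1 hc).1⟩)
    refine this.trans ?_
    rw [card_product, card_univ]
    calc ((rowZ κ ι A B C).card : ℝ) * ((B.card.choose M : ℝ) *
          ((M : ℝ) / B.card) ^ (C.card * Fintype.card ι))
        = (B.card.choose M : ℝ) * (((rowZ κ ι A B C).card : ℝ) *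
          ((M : ℝ) / B.card) ^ (C.card * Fintype.card ι)) := by ring
      _ ≤ (B.card.choose M : ℝ) * Y := mul_le_mul_of_nonneg_left (hY2 C hC hC') hC0
  calc (∑ S ∈ powersetCard M B, ((X ι κ A S).card : ℝ))
      ≤ ∑ S ∈ powersetCard M B, ((∑ R ∈ (univ : Finset (Finset ι)).filter (fun R => R ≠ ∅),
        (((sub (rowZ ι κ A B R) (R ×ˢ (univ : Finset κ)) S).card : ℕ) : ℝ)) +
      (∑ C ∈ (univ : Finset (Finset κ)).filter (fun C => C ≠ ∅ ∧ C ≠ univ),
        (((sub (rowZ κ ι A B C) (C ×ˢ (univ : Finset ι)) S).card : ℕ) : ℝ))) := by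
        refine Finset.sum_le_sum fun S hS => ?_
        have := card_X_le (ι := ι) (κ := κ) h (mem_powersetCard.1 hS).1
        exact_mod_cast this
    _ = (∑ R ∈ (univ : Finset (Finset ι)).filter (fun R => R ≠ ∅),
          ∑ S ∈ powersetCard M B, (((sub (rowZ ι κ A B R) (R ×ˢ (univ : Finset κ)) S).card : ℕ) : ℝ)) +
        (∑ C ∈ (univ : Finset (Finset κ)).filter (fun C => C ≠ ∅ ∧ C ≠ univ),
          ∑ S ∈ powersetCard M B, (((sub (rowZ κ ι A B C) (C ×ˢ (univ : Finset ι)) S).card : ℕ) : ℝ)) := by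
        rw [Finset.sum_add_distrib]
        congr 1
        · exact Finset.sum_comm
        · exact Finset.sum_comm
    _ ≤ (∑ R ∈ (univ : Finset (Finset ι)).filter (fun R => R ≠ ∅),
          (B.card.choose M : ℝ) * Y) +
        (∑ C ∈ (univ : Finset (Finset κ)).filter (fun C => C ≠ ∅ ∧ C ≠ univ),
          (B.card.choose M : ℝ) * Y) := by
        refine add_le_add (Finset.sum_le_sum fun R hR => ?_) (Finset.sum_le_sum fun C hC => ?_)
        · exact h1 R (mem_filter.1 hR).2
        · exact h2 C (mem_filter.1 hC).2.1 (mem_filter.1 hC).2.2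
    _ ≤ (B.card.choose M : ℝ) * ((2 ^ Fintype.card ι + 2 ^ Fintype.card κ) * Y) := by
        rw [Finset.sum_const, Finset.sum_const, nsmul_eq_mul, nsmul_eq_mul]
        have c1 : ((((univ : Finset (Finset ι)).filter (fun R => R ≠ ∅)).card : ℕ) : ℝ) ≤
            2 ^ Fintype.card ι := by
          have : ((univ : Finset (Finset ι)).filter (fun R => R ≠ ∅)).card ≤
              2 ^ Fintype.card ι := by
            refine (card_filter_le _ _).trans ?_
            simp
          exact_mod_cast this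
        have c2 : ((((univ : Finset (Finset κ)).filter (fun C => C ≠ ∅ ∧ C ≠ univ)).card : ℕ) : ℝ) ≤
            2 ^ Fintype.card κ := by
          have : ((univ : Finset (Finset κ)).filter (fun C => C ≠ ∅ ∧ C ≠ univ)).card ≤
              2 ^ Fintype.card κ := by
            refine (card_filter_le _ _).trans ?_
            simp
          exact_mod_cast this
        have hCY : 0 ≤ (B.card.choose M : ℝ) * Y := mul_nonneg hC0 hY0
        nlinarith [mul_le_mul_of_nonneg_right c1 hCY, mul_le_mul_of_nonneg_right c2 hCY]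

end Pool.Agent.T2H39.Chg
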